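import Mathlib

set_option autoImplicit false

namespace Pool.Agent.SignedCrit

/-- The `h`-fold signed sumset of a finite set `A` of residues modulo `n`. -/
def signedSumset {n : ℕ} (h : ℕ) (A : Finset (ZMod n)) : Set (ZMod n) :=
  {x | ∃ c : ZMod n → ℤ, ∑ a ∈ A, |c a| = (h : ℤ) ∧ ∑ a ∈ A, c a • a = x}

/-- The union of the `h`-fold signed sumsets over `0 ≤ h ≤ s`. -/
def signedInterval {n : ℕ} (s : ℕ) (A : Finset (ZMod n)) : Set (ZMod n) :=
  {x | ∃ h, h ≤ s ∧ x ∈ signedSumset h A}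

/-- The least `m` such that every `A` with at least `m` elements has full signed interval. -/
noncomputable def chi (n s : ℕ) : ℕ :=
  sInf {m | ∀ A : Finset (ZMod n), m ≤ A.card → signedInterval s A = Set.univ}

/-- The maximum over positive divisors `d` of `n` of `(2 * floor ((d-2)/(2h)) + 1) * (n/d)`. -/
noncomputable def vpm (n h : ℕ) : ℤ :=
  sSup {x : ℤ | ∃ d ∈ n.divisors, x = (2 * (((d : ℤ) - 2) / (2 * (h : ℤ))) + 1) * ((n / d : ℕ) : ℤ)}

end Pool.Agent.SignedCrit
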