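import Pool.Agent.SignedCrit.Upper

set_option autoImplicit false

namespace Pool.Agent.SignedCrit

open Finset

/-- the interval `[-b, b]` modulo `d` -/
noncomputable def win (d b : ℕ) : Finset (ZMod d) := (Finset.Icc (-(b : ℤ)) b).image (Int.cast : ℤ → ZMod d)

lemma card_win {d b : ℕ} (h : 2 * b + 1 ≤ d) : (win d b).card = 2 * b + 1 := by
  unfold win
  rw [Finset.card_image_of_injOn]
  · rw [Int.card_Icc]; omega
  · intro x hx y hy hxy
    rw [Finset.coe_Icc, Set.mem_Icc] at hx hy
    rw [ZMod.intCast_eq_intCast_iff] at hxy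
    have := hxy.dvd
    obtain ⟨k, hk⟩ := this
    rcases lt_trichotomy k 0 with h0 | h0 | h0
    · exfalso
      have : (d : ℤ) * k ≤ -(d : ℤ) := by nlinarith
      have h' : (2 * (b : ℤ) + 1) ≤ d := by exact_mod_cast h
      linarith [hx.1, hx.2, hy.1, hy.2]
    · rw [h0, mul_zero] at hk; linarith
    · exfalso
      have : (d : ℤ) ≤ (d : ℤ) * k := by nlinarith
      have h' : (2 * (b : ℤ) + 1) ≤ d := by exact_mod_cast h
      linarith [hx.1, hx.2, hy.1, hy.2]

/-- preimages under reduction have the expected size -/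
lemma card_preimage {n d : ℕ} [NeZero n] [NeZero d] (hd : d ∣ n) (W : Finset (ZMod d)) :
    (Finset.univ.filter (fun x : ZMod n => ZMod.castHom hd (ZMod d) x ∈ W)).card =
      W.card * (n / d) := by
  classical
  set φ := ZMod.castHom hd (ZMod d) with hφ
  have hsurj : Function.Surjective φ := ZMod.ringHom_surjective φ
  have hfib : ∀ w : ZMod d, (Finset.univ.filter (fun x : ZMod n => φ x = w)).card =
      (Finset.univ.filter (fun x : ZMod n => φ x = 0)).card := by
    intro w
    obtain ⟨x0, hx0⟩ := hsurj w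
    rw [← Finset.card_image_of_injective (Finset.univ.filter (fun x : ZMod n => φ x = 0))
      (add_right_injective x0)]
    congr 1
    ext x
    simp only [Finset.mem_filter, Finset.mem_univ, true_and, Finset.mem_image]
    constructor
    · intro hx
      exact ⟨-x0 + x, by rw [map_add, map_neg, hx0, hx]; simp, by simp⟩
    · rintro ⟨y, hy, rfl⟩
      rw [map_add, hx0, hy, add_zero]
  have hgen : ∀ W : Finset (ZMod d), (Finset.univ.filter (fun x : ZMod n => φ x ∈ W)).card =
      W.card * (Finset.univ.filter (fun x : ZMod n => φ x = 0)).card := by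
    intro W
    rw [Finset.card_eq_sum_card_fiberwise (f := φ) (t := W)]
    · rw [Finset.sum_congr rfl (g := fun _ =>
        (Finset.univ.filter (fun x : ZMod n => φ x = 0)).card)]
      · rw [Finset.sum_const, smul_eq_mul]
      · intro w hw
        rw [Finset.filter_filter, ← hfib w]
        congr 1
        ext x
        simp only [Finset.mem_filter, Finset.mem_univ, true_and]
        constructor
        · exact fun h => h.2
        · intro h; exact ⟨by rw [h]; exact hw, h⟩
    · intro x hx
      simpa using hx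
  have h1 := hgen Finset.univ
  simp only [Finset.mem_univ, Finset.filter_true, Finset.card_univ, ZMod.card] at h1
  rw [hgen W]
  congr 1
  have hdpos : 0 < d := Nat.pos_of_ne_zero (NeZero.ne d)
  exact (Nat.div_eq_of_eq_mul_right hdpos h1).symm

/-- For each divisor `d` there is a set of the claimed size whose signed interval is not full. -/
lemma lower {n s : ℕ} [NeZero n] (hs : 0 < s) {m : ℕ}
    (hm : ∀ A : Finset (ZMod n), m ≤ A.card → signedInterval s A = Set.univ)
    {d : ℕ} (hd : d ∈ n.divisors) :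
    (2 * (((d : ℤ) - 2) / (2 * (s : ℤ))) + 1) * ((n / d : ℕ) : ℤ) < m := by
  classical
  have hdn := (Nat.mem_divisors.1 hd).1
  have hnpos : 0 < n := Nat.pos_of_ne_zero (NeZero.ne n)
  have hdpos : 0 < d := Nat.pos_of_mem_divisors hd
  have : NeZero d := ⟨hdpos.ne'⟩
  have hquot : 0 < n / d := Nat.div_pos (Nat.le_of_dvd hnpos hdn) hdpos
  rcases Nat.lt_or_ge d 2 with h2 | h2
  · obtain rfl : d = 1 := by omega
    have hneg : (((1 : ℕ) : ℤ) - 2) / (2 * (s : ℤ)) < 0 := by
      apply Int.ediv_neg_of_neg_of_pos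
      · norm_num
      · positivity
    have h3 : (2 * ((((1 : ℕ) : ℤ) - 2) / (2 * (s : ℤ))) + 1) < 0 := by linarith
    have h4 : (0 : ℤ) < ((n / 1 : ℕ) : ℤ) := by exact_mod_cast hquot
    have := mul_neg_of_neg_of_pos h3 h4
    have h5 : (0 : ℤ) ≤ m := by positivity
    linarith
  · set b : ℕ := (d - 2) / (2 * s) with hb
    have hbint : ((d : ℤ) - 2) / (2 * (s : ℤ)) = b := by
      rw [hb]
      push_cast [Nat.cast_sub h2]
      rfl
    have hbs : 2 * (s * b) + 2 ≤ d := by
      have : 2 * s * b ≤ d - 2 := Nat.mul_div_le _ _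
      have h' : 2 * (s * b) = 2 * s * b := by ring
      omega
    have hb1 : b ≤ s * b := Nat.le_mul_of_pos_left b hs
    rw [hbint]
    set φ := ZMod.castHom hdn (ZMod d) with hφ
    set A := Finset.univ.filter (fun x : ZMod n => φ x ∈ win d b) with hA
    have hAcard : A.card = (2 * b + 1) * (n / d) := by
      rw [hA, card_preimage hdn, card_win (by omega)]
    by_contra hcon
    push Not at hcon
    have hmA : m ≤ A.card := by
      rw [hAcard]
      exact_mod_cast hcon
    have hfull := hm A hmA
    obtain ⟨x, hx⟩ := ZMod.ringHom_surjective φ (((s * b + 1 : ℕ) : ℤ) : ZMod d)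
    have hxmem : x ∈ signedInterval s A := by rw [hfull]; trivial
    rw [mem_signedInterval] at hxmem
    obtain ⟨c, hc, hcx⟩ := hxmem
    have hchoose : ∀ a : ZMod n, ∃ k : ℤ, a ∈ A → (|k| ≤ b ∧ (k : ZMod d) = φ a) := by
      intro a
      by_cases ha : a ∈ A
      · rw [hA, Finset.mem_filter, win, Finset.mem_image] at ha
        obtain ⟨_, k, hk, hka⟩ := ha
        rw [Finset.mem_Icc] at hk
        exact ⟨k, fun _ => ⟨abs_le.2 hk, hka⟩⟩
      · exact ⟨0, fun h => absurd h ha⟩
    choose k hk using hchoose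
    have hsum : ((∑ a ∈ A, c a * k a : ℤ) : ZMod d) = φ x := by
      rw [← hcx, map_sum]
      push_cast
      refine Finset.sum_congr rfl fun a ha => ?_
      rw [(hk a ha).2, map_zsmul, zsmul_eq_mul]
    have hbound : |∑ a ∈ A, c a * k a| ≤ (s : ℤ) * b := by
      calc |∑ a ∈ A, c a * k a| ≤ ∑ a ∈ A, |c a * k a| := Finset.abs_sum_le_sum_abs _ _
        _ ≤ ∑ a ∈ A, |c a| * b := by
          refine Finset.sum_le_sum fun a ha => ?_
          rw [abs_mul]
          exact mul_le_mul_of_nonneg_left (hk a ha).1 (abs_nonneg _)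
        _ = (∑ a ∈ A, |c a|) * b := by rw [Finset.sum_mul]
        _ ≤ (s : ℤ) * b := mul_le_mul_of_nonneg_right hc (by positivity)
    rw [hx, ZMod.intCast_eq_intCast_iff] at hsum
    obtain ⟨q, hq⟩ := hsum.dvd
    rw [abs_le] at hbound
    have h6 : (2 * ((s : ℤ) * b) + 2) ≤ d := by exact_mod_cast hbs
    push_cast at hq
    rcases lt_trichotomy q 0 with h0 | h0 | h0
    · have : (d : ℤ) * q ≤ -(d : ℤ) := by nlinarith
      linarith [hbound.1, hbound.2]
    · rw [h0, mul_zero] at hq; linarith [hbound.1, hbound.2]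
    · have : (d : ℤ) ≤ (d : ℤ) * q := by nlinarith
      linarith [hbound.1, hbound.2]

end Pool.Agent.SignedCrit
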