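import Pool.Agent.SignedCrit.Defs
import Pool.Agent.LibKneser.Kneser

set_option autoImplicit false

namespace Pool.Agent.SignedCrit

open Finset
open Pool.Agent.LibKneser
open scoped Pointwise

lemma mem_signedInterval {n : ℕ} {s : ℕ} {A : Finset (ZMod n)} {x : ZMod n} :
    x ∈ signedInterval s A ↔ ∃ c : ZMod n → ℤ, ∑ a ∈ A, |c a| ≤ (s : ℤ) ∧ ∑ a ∈ A, c a • a = x := by
  constructor
  · rintro ⟨h, hs, c, hc, hx⟩
    exact ⟨c, by rw [hc]; exact_mod_cast hs, hx⟩
  · rintro ⟨c, hc, hx⟩
    have h0 : 0 ≤ ∑ a ∈ A, |c a| := Finset.sum_nonneg fun a _ => abs_nonneg _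
    refine ⟨(∑ a ∈ A, |c a|).toNat, ?_, c, ?_, hx⟩
    · omega
    · exact (Int.toNat_of_nonneg h0).symm

/-- adding one signed generator -/
lemma signedInterval_add {n : ℕ} {s : ℕ} {A : Finset (ZMod n)} {x a : ZMod n}
    (hx : x ∈ signedInterval s A) (ha : a ∈ A) (e : ℤ) (he : |e| ≤ 1) :
    x + e • a ∈ signedInterval (s + 1) A := by
  rw [mem_signedInterval] at hx ⊢
  obtain ⟨c, hc, rfl⟩ := hx
  refine ⟨fun y => c y + if y = a then e else 0, ?_, ?_⟩
  · calc ∑ y ∈ A, |c y + if y = a then e else 0| ≤ ∑ y ∈ A, (|c y| + |if y = a then e else 0|) :=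
        Finset.sum_le_sum fun y _ => abs_add_le _ _
      _ = ∑ y ∈ A, |c y| + |e| := by
        rw [Finset.sum_add_distrib]
        congr 1
        rw [Finset.sum_eq_single a]
        · simp
        · intro b _ hb; simp [hb]
        · intro h; exact absurd ha h
      _ ≤ (s : ℤ) + 1 := by linarith
      _ = ((s + 1 : ℕ) : ℤ) := by push_cast; ring
  · simp_rw [add_smul]
    rw [Finset.sum_add_distrib]
    congr 1
    rw [Finset.sum_eq_single a]
    · simp
    · intro b _ hb; simp [hb]
    · intro h; exact absurd ha h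

lemma zero_mem_signedInterval {n : ℕ} {s : ℕ} {A : Finset (ZMod n)} :
    (0 : ZMod n) ∈ signedInterval s A := by
  rw [mem_signedInterval]
  exact ⟨fun _ => 0, by simp, by simp⟩

lemma signedInterval_mono {n : ℕ} {s : ℕ} {A : Finset (ZMod n)} {x : ZMod n}
    (hx : x ∈ signedInterval s A) : x ∈ signedInterval (s + 1) A := by
  rw [mem_signedInterval] at hx ⊢
  obtain ⟨c, hc, hx⟩ := hx
  exact ⟨c, by push_cast; linarith, hx⟩

section

variable {G : Type*} [AddCommGroup G] [DecidableEq G]

/-- iterated sumset -/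
def ks (B : Finset G) : ℕ → Finset G
  | 0 => {0}
  | k + 1 => ks B k + B

lemma zero_mem_ks {B : Finset G} (h0 : (0 : G) ∈ B) (k : ℕ) : (0 : G) ∈ ks B k := by
  induction k with
  | zero => simp [ks]
  | succ k ih =>
    rw [ks]
    simpa using Finset.add_mem_add ih h0

lemma ks_nonempty {B : Finset G} (h0 : (0 : G) ∈ B) (k : ℕ) : (ks B k).Nonempty :=
  ⟨0, zero_mem_ks h0 k⟩

lemma ks_add (B : Finset G) (k l : ℕ) : ks B (k + l) = ks B k + ks B l := by
  induction l with
  | zero => exact (add_zero (ks B k)).symm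
  | succ l ih => rw [← add_assoc, ks, ih, ks, add_assoc]

/-- iterated Kneser -/
lemma iterated {B : Finset G} (h0 : (0 : G) ∈ B) (s : ℕ) :
    ∀ k, 1 ≤ k → k ≤ s → k * (B + per (ks B s)).card ≤
      (ks B k + per (ks B s)).card + (k - 1) * (per (ks B s)).card := by
  set S := ks B s with hS
  have hSne : S.Nonempty := ks_nonempty h0 s
  set H := per S with hH
  have hH0 : (0 : G) ∈ H := zero_mem_per hSne
  have hHne : H.Nonempty := ⟨0, hH0⟩
  have hSH : S + H = S := add_per hSne
  have hHH : H + H = H := by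
    apply Finset.Subset.antisymm
    · intro x hx
      obtain ⟨a, ha, b, hb, rfl⟩ := Finset.mem_add.1 hx
      exact add_mem_per hSne ha hb
    · intro x hx
      exact Finset.mem_add.2 ⟨x, hx, 0, hH0, add_zero x⟩
  intro k
  induction k with
  | zero => intro h; omega
  | succ k ih =>
    intro _ hk
    rcases Nat.eq_zero_or_pos k with rfl | hkpos
    · have h1 : ks B (0 + 1) = B := zero_add B
      rw [h1]
      simp
    have ih' := ih hkpos (by omega)
    have hB : B.Nonempty := ⟨0, h0⟩
    have hw := kneser_weak (A := ks B k + H) (B := B + H) ((ks_nonempty h0 k).add hHne)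
      (hB.add hHne)
    have e : ks B k + H + (B + H) = ks B (k + 1) + H := by
      rw [ks]
      calc ks B k + H + (B + H) = ks B k + B + (H + H) := by abel
        _ = ks B k + B + H := by rw [hHH]
    rw [e] at hw
    have hsub : per (ks B (k + 1) + H) ⊆ H := by
      intro g hg
      have hne : (ks B (k + 1) + H).Nonempty := (ks_nonempty h0 _).add hHne
      rw [mem_per hne] at hg
      rw [hH, mem_per hSne]
      intro c hc
      have hdec : S = (ks B (k + 1) + H) + ks B (s - (k + 1)) := by
        calc S = S + H := hSH.symm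
          _ = ks B (k + 1 + (s - (k + 1))) + H := by
            rw [hS, show k + 1 + (s - (k + 1)) = s by omega]
          _ = _ := by rw [ks_add]; abel
      rw [hdec] at hc ⊢
      obtain ⟨u, hu, v, hv, rfl⟩ := Finset.mem_add.1 hc
      rw [← add_assoc]
      exact Finset.add_mem_add (hg u hu) hv
    have hcard := Finset.card_le_card hsub
    have e2 : (k + 1 - 1) * H.card = (k - 1) * H.card + H.card := by
      rcases k with _ | k
      · omega
      · simp; ring
    rw [e2, Nat.add_mul, one_mul]
    omega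

/-- the period as a subgroup -/
def perSub {C : Finset G} (hC : C.Nonempty) : AddSubgroup G where
  carrier := per C
  add_mem' := fun ha hb => add_mem_per hC ha hb
  zero_mem' := zero_mem_per hC
  neg_mem' := fun ha => neg_mem_per hC ha

/-- a periodic set has cardinality divisible by the period. -/
lemma card_dvd {C D : Finset G} (hC : C.Nonempty) (hD : D + per C = D) :
    (per C).card ∣ D.card := by
  classical
  set q : G → G ⧸ perSub hC := fun g => (g : G ⧸ perSub hC) with hq
  rw [Finset.card_eq_sum_card_image q D]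
  apply Finset.dvd_sum
  intro y hy
  rw [Finset.mem_image] at hy
  obtain ⟨c, hc, rfl⟩ := hy
  have : D.filter (fun x => q x = q c) = (per C).image (fun h => c + h) := by
    ext x
    rw [Finset.mem_filter, Finset.mem_image]
    constructor
    · rintro ⟨_, hx⟩
      refine ⟨-c + x, ?_, by simp⟩
      have := QuotientAddGroup.eq.1 hx.symm
      exact this
    · rintro ⟨h, hh, rfl⟩
      refine ⟨?_, ?_⟩
      · rw [← hD]; exact Finset.add_mem_add hc hh
      · apply Eq.symm
        apply QuotientAddGroup.eq.2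
        have : -c + (c + h) = h := by abel
        rw [this]
        exact hh
  rw [this, Finset.card_image_of_injective _ (add_right_injective c)]

end

/-- a symmetric set of residues modulo an odd number containing `0` has odd size. -/
lemma odd_card {n : ℕ} (hn : Odd n) [NeZero n] (T : Finset (ZMod n)) (h0 : (0 : ZMod n) ∈ T)
    (hsymm : ∀ x ∈ T, -x ∈ T) : Odd T.card := by
  classical
  have h1 : ∑ x ∈ T.erase 0, (1 : ZMod 2) = 0 := by
    apply Finset.sum_involution (fun a _ => -a)
    · intro a _; decide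
    · intro a ha _ heq
      have ha0 : a ≠ 0 := Finset.ne_of_mem_erase ha
      apply ha0
      have h2 : (2 : ZMod n) * a = 0 := by
        rw [two_mul]
        nth_rewrite 1 [← heq]
        simp
      have hu : IsUnit (2 : ZMod n) := by
        have := (ZMod.isUnit_iff_coprime 2 n).2 (by
          rw [Nat.coprime_comm]
          exact Nat.Coprime.symm (Nat.coprime_two_left.2 hn))
        simpa using this
      exact (hu.mul_right_eq_zero).1 h2
    · intro a _; exact neg_neg a
    · intro a ha
      have ha0 : a ≠ 0 := Finset.ne_of_mem_erase ha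
      exact Finset.mem_erase.2 ⟨neg_ne_zero.2 ha0, hsymm a (Finset.mem_of_mem_erase ha)⟩
  rw [Finset.sum_const, nsmul_eq_mul, mul_one, ZMod.natCast_eq_zero_iff] at h1
  have h2 := Finset.card_erase_add_one h0
  rw [← h2]
  exact Even.add_one (even_iff_two_dvd.2 h1)

/-- Odd modulus: the Kneser argument. -/
lemma upper_odd {n s : ℕ} (hn : Odd n) (hs : 0 < s) [NeZero n] (A : Finset (ZMod n))
    (hA : signedInterval s A ≠ Set.univ) :
    ∃ d ∈ n.divisors, (A.card : ℤ) ≤
      (2 * (((d : ℤ) - 2) / (2 * (s : ℤ))) + 1) * ((n / d : ℕ) : ℤ) := by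
  classical
  have hnpos : 0 < n := Nat.pos_of_ne_zero (NeZero.ne n)
  set B : Finset (ZMod n) := insert 0 (A ∪ A.image (fun x => -x)) with hB
  have h0 : (0 : ZMod n) ∈ B := Finset.mem_insert_self _ _
  have hBsymm : ∀ x ∈ B, -x ∈ B := by
    intro x hx
    simp only [hB, Finset.mem_insert, Finset.mem_union, Finset.mem_image] at hx ⊢
    rcases hx with rfl | hx | ⟨y, hy, rfl⟩
    · left; simp
    · right; right; exact ⟨x, hx, rfl⟩
    · right; left; simpa using hy
  have hks : ∀ k, ∀ x ∈ ks B k, x ∈ signedInterval k A := by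
    intro k
    induction k with
    | zero =>
      intro x hx
      simp only [ks, Finset.mem_singleton] at hx
      rw [hx]; exact zero_mem_signedInterval
    | succ k ih =>
      intro x hx
      rw [ks, Finset.mem_add] at hx
      obtain ⟨u, hu, v, hv, rfl⟩ := hx
      simp only [hB, Finset.mem_insert, Finset.mem_union, Finset.mem_image] at hv
      rcases hv with rfl | hv | ⟨y, hy, rfl⟩
      · rw [add_zero]; exact signedInterval_mono (ih u hu)
      · have := signedInterval_add (ih u hu) hv 1 (by simp)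
        simpa using this
      · have := signedInterval_add (ih u hu) hy (-1) (by simp)
        simpa using this
  set S := ks B s with hS
  have hSne : S.Nonempty := ks_nonempty h0 s
  have hSuniv : S ≠ Finset.univ := by
    intro h
    apply hA
    apply Set.eq_univ_of_forall
    intro x
    exact hks s x (by rw [← hS, h]; exact Finset.mem_univ x)
  set H := per S with hH
  have hH0 : (0 : ZMod n) ∈ H := zero_mem_per hSne
  have hHH : H + H = H := by
    apply Finset.Subset.antisymm
    · intro x hx
      obtain ⟨a, ha, b, hb, rfl⟩ := Finset.mem_add.1 hx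
      exact add_mem_per hSne ha hb
    · intro x hx
      exact Finset.mem_add.2 ⟨x, hx, 0, hH0, add_zero x⟩
  set T := B + H with hT
  have hTH : T + H = T := by rw [hT, add_assoc, hHH]
  have hSH : S + H = S := add_per hSne
  have hit := iterated h0 s s hs le_rfl
  rw [← hS, ← hH, ← hT, hSH] at hit
  obtain ⟨t, ht⟩ := card_dvd hSne hTH
  obtain ⟨σ, hσ⟩ := card_dvd hSne hSH
  obtain ⟨d, hd⟩ : (per S).card ∣ (Finset.univ : Finset (ZMod n)).card := by
    apply card_dvd hSne
    apply Finset.Subset.antisymm (Finset.subset_univ _)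
    intro x _
    exact Finset.mem_add.2 ⟨x, Finset.mem_univ x, 0, hH0, add_zero x⟩
  rw [← hH] at ht hσ hd
  rw [Finset.card_univ, ZMod.card] at hd
  have hhpos : 0 < H.card := Finset.card_pos.2 ⟨0, hH0⟩
  have hTodd : Odd T.card := by
    apply odd_card hn
    · exact Finset.mem_add.2 ⟨0, h0, 0, hH0, add_zero 0⟩
    · intro x hx
      rw [hT] at hx ⊢
      obtain ⟨a, ha, b, hb, rfl⟩ := Finset.mem_add.1 hx
      rw [neg_add]
      exact Finset.add_mem_add (hBsymm a ha) (neg_mem_per hSne hb)
  have htodd : Odd t := by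
    rw [ht] at hTodd
    exact (Nat.odd_mul.1 hTodd).2
  obtain ⟨b, rfl⟩ := htodd
  have hσd : σ < d := by
    have hlt : S.card < n := by
      have := Finset.card_lt_univ_of_notMem (s := S) (x := Classical.choose
        (not_forall.1 (fun h => hSuniv (Finset.eq_univ_iff_forall.2 h))))
        (Classical.choose_spec (not_forall.1 (fun h => hSuniv (Finset.eq_univ_iff_forall.2 h))))
      rwa [ZMod.card] at this
    rw [hσ] at hlt
    exact lt_of_mul_lt_mul_left (hlt.trans_eq hd) (Nat.zero_le _)
  have hineq : s * (2 * b + 1) ≤ σ + (s - 1) := by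
    rw [ht, hσ] at hit
    have : H.card * (s * (2 * b + 1)) ≤ H.card * (σ + (s - 1)) := by
      calc H.card * (s * (2 * b + 1)) = s * (H.card * (2 * b + 1)) := by ring
        _ ≤ H.card * σ + (s - 1) * H.card := hit
        _ = _ := by ring
    exact le_of_mul_le_mul_left this hhpos
  have hAT : A.card ≤ T.card := by
    apply Finset.card_le_card
    intro x hx
    rw [hT]
    refine Finset.mem_add.2 ⟨x, ?_, 0, hH0, add_zero x⟩
    rw [hB]
    exact Finset.mem_insert_of_mem (Finset.mem_union_left _ hx)
  have hdpos : 0 < d := by omega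
  have hdn : n / d = H.card := Nat.div_eq_of_eq_mul_left hdpos hd
  refine ⟨d, Nat.mem_divisors.2 ⟨⟨H.card, hd.trans (mul_comm _ _)⟩, hnpos.ne'⟩, ?_⟩
  rw [hdn]
  have hb : (b : ℤ) ≤ ((d : ℤ) - 2) / (2 * (s : ℤ)) := by
    rw [Int.le_ediv_iff_mul_le (by positivity)]
    have h1 : s * (2 * b + 1) + 1 ≤ d + (s - 1) := by omega
    have h2 : (s : ℤ) * (2 * b + 1) + 1 ≤ d + ((s - 1 : ℕ) : ℤ) := by exact_mod_cast h1
    have h3 : ((s - 1 : ℕ) : ℤ) = (s : ℤ) - 1 := by
      rw [Nat.cast_sub hs]; simp
    rw [h3] at h2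
    nlinarith
  calc (A.card : ℤ) ≤ (T.card : ℤ) := by exact_mod_cast hAT
    _ = (2 * (b : ℤ) + 1) * (H.card : ℤ) := by rw [ht]; push_cast; ring
    _ ≤ _ := by
      apply mul_le_mul_of_nonneg_right _ (by positivity)
      linarith

/-- Even modulus and `s ≥ 2`: pigeonhole. -/
lemma upper_even_two {n s : ℕ} (hn : Even n) (hs : 2 ≤ s) [NeZero n] (A : Finset (ZMod n))
    (hA : signedInterval s A ≠ Set.univ) :
    ∃ d ∈ n.divisors, (A.card : ℤ) ≤
      (2 * (((d : ℤ) - 2) / (2 * (s : ℤ))) + 1) * ((n / d : ℕ) : ℤ) := by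
  classical
  have hnpos : 0 < n := Nat.pos_of_ne_zero (NeZero.ne n)
  refine ⟨2, Nat.mem_divisors.2 ⟨even_iff_two_dvd.1 hn, hnpos.ne'⟩, ?_⟩
  have hcard : A.card ≤ n / 2 := by
    by_contra hlt
    push Not at hlt
    apply hA
    apply Set.eq_univ_of_forall
    intro x
    have hinter : (A ∩ A.image (fun a => x - a)).Nonempty := by
      rw [← Finset.card_pos]
      have h1 := Finset.card_union_add_card_inter A (A.image (fun a => x - a))
      rw [Finset.card_image_of_injective A (sub_right_injective (b := x))] at h1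
      have h2 : (A ∪ A.image (fun a => x - a)).card ≤ n := by
        have := Finset.card_le_univ (A ∪ A.image (fun a => x - a))
        rwa [ZMod.card] at this
      obtain ⟨k, hk⟩ := hn
      omega
    obtain ⟨y, hy⟩ := hinter
    rw [Finset.mem_inter, Finset.mem_image] at hy
    obtain ⟨hy1, z, hz, hzy⟩ := hy
    have e1 := signedInterval_add (s := 0) (A := A) zero_mem_signedInterval hy1 1 (by simp)
    have e2 := signedInterval_add e1 hz 1 (by simp)
    have hx : (0 : ZMod n) + (1 : ℤ) • y + (1 : ℤ) • z = x := by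
      rw [← hzy]; simp
    rw [hx, mem_signedInterval] at e2
    rw [mem_signedInterval]
    obtain ⟨c, hc, hc'⟩ := e2
    refine ⟨c, hc.trans ?_, hc'⟩
    push_cast
    have : (2 : ℤ) ≤ s := by exact_mod_cast hs
    linarith
  have : (A.card : ℤ) ≤ ((n / 2 : ℕ) : ℤ) := by exact_mod_cast hcard
  simpa using this

/-- Even modulus and `s = 1`. -/
lemma upper_even_one {n : ℕ} (hn : Even n) [NeZero n] (A : Finset (ZMod n))
    (hA : signedInterval 1 A ≠ Set.univ) :
    ∃ d ∈ n.divisors, (A.card : ℤ) ≤
      (2 * (((d : ℤ) - 2) / (2 * ((1 : ℕ) : ℤ))) + 1) * ((n / d : ℕ) : ℤ) := by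
  classical
  have hnpos : 0 < n := Nat.pos_of_ne_zero (NeZero.ne n)
  refine ⟨n, Nat.mem_divisors.2 ⟨dvd_rfl, hnpos.ne'⟩, ?_⟩
  have hcard : A.card < n := by
    by_contra hlt
    push Not at hlt
    apply hA
    have huniv : A = Finset.univ := by
      apply Finset.eq_univ_of_card
      rw [ZMod.card]
      apply le_antisymm _ hlt
      have := Finset.card_le_univ A
      rwa [ZMod.card] at this
    apply Set.eq_univ_of_forall
    intro x
    have e1 := signedInterval_add (s := 0) (A := A) zero_mem_signedInterval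
      (a := x) (by rw [huniv]; exact Finset.mem_univ x) 1 (by simp)
    simpa using e1
  obtain ⟨k, hk⟩ := hn
  have hself : n / n = 1 := Nat.div_self hnpos
  rw [hself]
  have : ((n : ℤ) - 2) / (2 * ((1 : ℕ) : ℤ)) = (k : ℤ) - 1 := by
    rw [hk]
    push_cast
    omega
  rw [this]
  push_cast
  have h2 : (A.card : ℤ) < (n : ℤ) := by exact_mod_cast hcard
  have h3 : (n : ℤ) = (k : ℤ) + k := by exact_mod_cast hk
  linarith

lemma upper {n s : ℕ} (hs : 0 < s) [NeZero n] (A : Finset (ZMod n))
    (hA : signedInterval s A ≠ Set.univ) :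
    ∃ d ∈ n.divisors, (A.card : ℤ) ≤
      (2 * (((d : ℤ) - 2) / (2 * (s : ℤ))) + 1) * ((n / d : ℕ) : ℤ) := by
  rcases Nat.even_or_odd n with hn | hn
  · rcases Nat.lt_or_ge 1 s with h | h
    · exact upper_even_two hn h A hA
    · obtain rfl : s = 1 := by omega
      exact upper_even_one hn A hA
  · exact upper_odd hn hs A hA

end Pool.Agent.SignedCrit
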